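import Pool.Agent.W945.Lc.Stm2

/-! Project LC, second version: the main induction. -/

set_option autoImplicit false

noncomputable section

namespace Pool.Agent.W427.Lc2.ELIMS

open Pool.Agent.W945.Pw Pool.Agent.W945.Lc Finset

theorem one_le_rho : 1 ≤ rho := by
  unfold rho
  norm_num

theorem one_le_rpow (e : ℕ) : 1 ≤ rho ^ e := one_le_pow₀ one_le_rho

theorem rho_pos : 0 < rho := lt_of_lt_of_le one_pos one_le_rho

/-- the hypotheses on the blocks -/
def Good {N n : ℕ} (J : Finset (Fin N)) (B : Fin N → Fn n) (Q : Fin N → Finset (Fin n))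
    (l : Fin N → ℕ) (p a : Fin N → ℝ) : Prop :=
  (∀ j ∈ J, Blk (l j) (p j) (a j) ∧ Sp (Q j) (p j) (a j) (fun x => ind (B j x))) ∧
  (∀ i ∈ J, ∀ j ∈ J, i ≠ j → Disjoint (Q i) (Q j))

theorem Good.mono {N n : ℕ} {J J' : Finset (Fin N)} {B : Fin N → Fn n} {Q : Fin N → Finset (Fin n)}
    {l : Fin N → ℕ} {p a : Fin N → ℝ} (h : Good J B Q l p a) (hJ : J' ⊆ J) : Good J' B Q l p a :=
  ⟨fun j hj => h.1 j (hJ hj), fun i hi j hj => h.2 i (hJ hi) j (hJ hj)⟩

/-- the conclusion -/
def Res {N n : ℕ} (F : Fn N) (B : Fin N → Fn n) (E : ℕ) : Prop :=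
  SN (fun x => ind (F fun j => B j x)) (rho ^ E)

/-- dependence on the variables in `J` -/
def DepJ {N : ℕ} (J : Finset (Fin N)) (F : Fn N) : Prop :=
  ∀ x x', (∀ j ∈ J, x j = x' j) → F x = F x'

/-- the statement for circuits of size `s` -/
def P (s N n : ℕ) : Prop := ∀ (F : Fn N) (J : Finset (Fin N)) (B : Fin N → Fn n)
  (Q : Fin N → Finset (Fin n)) (l : Fin N → ℕ) (p a : Fin N → ℝ),
  Computes F s → DepJ J F → Good J B Q l p a → Res F B (s + (∑ j ∈ J, (l j - 1)) + 3)

theorem res_const (hN : SNL.Stm) {N n : ℕ} (F : Fn N) (B : Fin N → Fn n) (E : ℕ) (b : Bool)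
    (h : ∀ x, F x = b) : Res F B E := by
  obtain ⟨-, h2, h3, -⟩ := hN n
  refine h2 _ 1 _ ?_ (one_le_rpow E)
  have h4 : (fun x => ind (F fun j => B j x)) = fun _ : Fin n → Bool => ind b := by
    funext x
    rw [h]
  rw [h4]
  exact h3 b

theorem Res.mono (hN : SNL.Stm) {N n : ℕ} {F : Fn N} {B : Fin N → Fn n} {E E' : ℕ}
    (h : Res F B E) (hE : E ≤ E') : Res F B E' :=
  (hN n).2.1 _ _ _ h (pow_le_pow_right₀ one_le_rho hE)

theorem sub (hN : SNL.Stm) {s N n : ℕ} (IH : ∀ s' < s, P s' N n) (G : Fn N) (J : Finset (Fin N))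
    (B : Fin N → Fn n) (Q : Fin N → Finset (Fin n)) (l : Fin N → ℕ) (p a : Fin N → ℝ)
    (k E : ℕ) (hD : Drop G s k) (hk : 1 ≤ k) (hdep : DepJ J G)
    (hg : Good J B Q l p a) (hE : s + (∑ j ∈ J, (l j - 1)) + 3 ≤ E + k) : Res G B E := by
  rcases hD with ⟨b, hb⟩ | ⟨s', hs', hs⟩
  · exact res_const hN G B E b hb
  · exact (IH s' (by omega) G J B Q l p a hs' hdep hg).mono hN (by omega)

/-- numbers of a block -/
def Num (l : ℕ) (p a : ℝ) : Prop :=
  1 ≤ l ∧ 0 ≤ p ∧ p ≤ 1 ∧ p ≤ a ∧ a + (1 - 2 * p + a) * rho ^ 2 ≤ rho ^ (l + 3) ∧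
    (1 - 2 * p + a) + a * rho ^ 2 ≤ rho ^ (l + 3) ∧ a + (1 - 2 * p + a) ≤ rho ^ (l + 2)

theorem sp_not (hS : SPL.Stm) {n : ℕ} {Q : Finset (Fin n)} {p a : ℝ} {B : Fn n} {l : ℕ}
    (hn : Num l p a) (h : Sp Q p a (fun x => ind (B x))) :
    Sp Q (1 - p) (1 - 2 * p + a) (fun x => 1 - ind (B x)) :=
  hS.2.1 n Q p a _ hn.2.1 hn.2.2.1 h

theorem ind_not (b : Bool) : ind (!b) = 1 - ind b := by
  cases b <;> simp [ind]

theorem ind_and (b c : Bool) : ind (b && c) = ind b * ind c := by
  cases b <;> cases c <;> simp [ind]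

theorem third (hN : SNL.Stm) (hS : SPL.Stm) {s N n : ℕ} (IH : ∀ s' < s, P s' N n) (F : Fn N)
    (J : Finset (Fin N)) (B : Fin N → Fn n) (Q : Fin N → Finset (Fin n)) (l : Fin N → ℕ)
    (p a : Fin N → ℝ) (hdep : DepJ J F) (hg : Good J B Q l p a)
    (hW : ∀ l' p' a', Blk l' p' a' → Num l' p' a')
    (hs : 1 ≤ s) (i : Fin N) (c₁ c₂ : Bool)
    (hD : ∀ c, Drop (res F i c) s (2 + kap c₁ c₂ c)) :
    Res F B (s + (∑ j ∈ J, (l j - 1)) + 3) := by
  by_cases hi : i ∈ J
  · have hsum : (l i - 1) + ∑ j ∈ J.erase i, (l j - 1) = ∑ j ∈ J, (l j - 1) :=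
      Finset.add_sum_erase J (fun j => l j - 1) hi
    obtain ⟨h1, h2⟩ := hg.1 i hi
    have hn := hW _ _ _ h1
    have hkap : ∀ c, kap c₁ c₂ c ≤ 2 := by
      intro c
      unfold kap
      split_ifs <;> omega
    set m : ℕ := s - 1 + ∑ j ∈ J.erase i, (l j - 1) with hm
    have hres : ∀ c, Res (res F i c) B (m + (2 - kap c₁ c₂ c)) := by
      intro c
      have hk := hkap c
      refine sub hN IH (res F i c) (J.erase i) B Q l p a (2 + kap c₁ c₂ c) _ (hD c) (by omega) ?_
        (hg.mono (Finset.erase_subset _ _)) (by omega)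
      intro x x' hx
      refine hdep _ _ fun j hj => ?_
      by_cases hji : j = i
      · rw [hji, Function.update_self, Function.update_self]
      · rw [Function.update_of_ne hji, Function.update_of_ne hji]
        exact hx j (Finset.mem_erase.mpr ⟨hji, hj⟩)
    obtain ⟨hsn, hmono, -, hsp⟩ := hN n
    have q1 : SN (fun x => ind (B i x)) (a i) := hsp _ _ _ _ h2
    have q2 : SN (fun x => 1 - ind (B i x)) (1 - 2 * p i + a i) := hsp _ _ _ _ (sp_not hS hn h2)
    have r1 := (hsn _ _ _ _ q1 (hres true)).2
    have r2 := (hsn _ _ _ _ q2 (hres false)).2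
    have r3 := (hsn _ _ _ _ r1 r2).1
    have hfun : (fun x => ind (F fun j => B j x)) = fun x =>
        ind (B i x) * ind (res F i true fun j => B j x) +
          (1 - ind (B i x)) * ind (res F i false fun j => B j x) := by
      funext x
      have hup : ∀ c, B i x = c → res F i c (fun j => B j x) = F fun j => B j x := by
        intro c hc
        unfold res
        rw [← hc]
        congr 1
        exact Function.update_eq_self i (fun j => B j x)
      cases hb : B i x
      · rw [hup false hb]
        simp [ind]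
      · rw [hup true hb]
        simp [ind]
    unfold Res
    rw [hfun]
    refine hmono _ _ _ r3 ?_
    obtain ⟨n1, n2, n3, n4, n5, n6, n7⟩ := hn
    have hE : s + (∑ j ∈ J, (l j - 1)) + 3 = m + (l i + 3) := by omega
    rw [hE]
    have hmp : (0 : ℝ) ≤ rho ^ m := by
      have := one_le_rpow m
      linarith
    have hrp := rho_pos
    have key : a i * rho ^ (2 - kap c₁ c₂ true) +
        (1 - 2 * p i + a i) * rho ^ (2 - kap c₁ c₂ false) ≤ rho ^ (l i + 3) := by
      cases c₁ <;> cases c₂
      · have e1 : 2 - kap false false true = 2 := by simp [kap]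
        have e2 : 2 - kap false false false = 0 := by simp [kap]
        rw [e1, e2, pow_zero, mul_one]
        linarith
      · have e1 : 2 - kap false true true = 1 := by simp [kap]
        have e2 : 2 - kap false true false = 1 := by simp [kap]
        rw [e1, e2, pow_one, ← add_mul]
        have := mul_le_mul_of_nonneg_right n7 hrp.le
        rw [← pow_succ] at this
        exact this
      · have e1 : 2 - kap true false true = 1 := by simp [kap]
        have e2 : 2 - kap true false false = 1 := by simp [kap]
        rw [e1, e2, pow_one, ← add_mul]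
        have := mul_le_mul_of_nonneg_right n7 hrp.le
        rw [← pow_succ] at this
        exact this
      · have e1 : 2 - kap true true true = 0 := by simp [kap]
        have e2 : 2 - kap true true false = 2 := by simp [kap]
        rw [e1, e2, pow_zero, mul_one]
        linarith
    have h5 := mul_le_mul_of_nonneg_left key hmp
    calc a i * rho ^ (m + (2 - kap c₁ c₂ true)) +
          (1 - 2 * p i + a i) * rho ^ (m + (2 - kap c₁ c₂ false))
        = rho ^ m * (a i * rho ^ (2 - kap c₁ c₂ true) +
          (1 - 2 * p i + a i) * rho ^ (2 - kap c₁ c₂ false)) := by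
          rw [pow_add rho m (2 - kap c₁ c₂ true), pow_add rho m (2 - kap c₁ c₂ false)]; ring
      _ ≤ rho ^ m * rho ^ (l i + 3) := h5
      _ = rho ^ (m + (l i + 3)) := (pow_add rho m (l i + 3)).symm
  · have hF : F = res F i false := by
      funext x
      refine hdep _ _ fun j hj => ?_
      have hji : j ≠ i := fun h => hi (h ▸ hj)
      rw [Function.update_of_ne hji]
    have hD' : Drop F s (2 + kap c₁ c₂ false) := by
      have := hD false
      rwa [← hF] at this
    exact sub hN IH F J B Q l p a (2 + kap c₁ c₂ false) _ hD' (by omega) hdep hg (by omega)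

theorem literal (hN : SNL.Stm) (hS : SPL.Stm) {N n : ℕ} (s : ℕ) (F : Fn N)
    (J : Finset (Fin N)) (B : Fin N → Fn n) (Q : Fin N → Finset (Fin n)) (l : Fin N → ℕ)
    (p a : Fin N → ℝ) (hdep : DepJ J F) (hg : Good J B Q l p a)
    (hW : ∀ l' p' a', Blk l' p' a' → Num l' p' a')
    (i : Fin N) (b : Bool) (hF : ∀ x, F x = xor (x i) b) :
    Res F B (s + (∑ j ∈ J, (l j - 1)) + 3) := by
  have hi : i ∈ J := by
    by_contra hi
    have h1 := hdep (Function.update (fun _ => false) i true)
      (Function.update (fun _ => false) i false) (fun j hj => by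
        have hji : j ≠ i := fun h => hi (h ▸ hj)
        rw [Function.update_of_ne hji, Function.update_of_ne hji])
    rw [hF, hF, Function.update_self, Function.update_self] at h1
    cases b <;> simp at h1
  obtain ⟨h1, h2⟩ := hg.1 i hi
  have hn := hW _ _ _ h1
  obtain ⟨hsn, hmono, -, hsp⟩ := hN n
  have q1 : SN (fun x => ind (B i x)) (a i) := hsp _ _ _ _ h2
  have q2 : SN (fun x => 1 - ind (B i x)) (1 - 2 * p i + a i) := hsp _ _ _ _ (sp_not hS hn h2)
  obtain ⟨n1, n2, n3, n4, n5, n6, n7⟩ := hn
  have hsum : (l i - 1) + ∑ j ∈ J.erase i, (l j - 1) = ∑ j ∈ J, (l j - 1) :=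
    Finset.add_sum_erase J (fun j => l j - 1) hi
  have hle : rho ^ (l i + 2) ≤ rho ^ (s + (∑ j ∈ J, (l j - 1)) + 3) :=
    pow_le_pow_right₀ one_le_rho (by omega)
  cases b with
  | false =>
    have hfun : (fun x => ind (F fun j => B j x)) = fun x => ind (B i x) := by
      funext x
      rw [hF, Bool.xor_false]
    unfold Res
    rw [hfun]
    exact hmono _ _ _ q1 (by linarith)
  | true =>
    have hfun : (fun x => ind (F fun j => B j x)) = fun x => 1 - ind (B i x) := by
      funext x
      rw [hF, Bool.xor_true, ind_not]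
    unfold Res
    rw [hfun]
    exact hmono _ _ _ q2 (by linarith)

theorem signed (hS : SPL.Stm) {n : ℕ} {Q : Finset (Fin n)} {p a : ℝ} {B : Fn n} {l : ℕ}
    (hW : ∀ l' p' a', Blk l' p' a' → Num l' p' a')
    (hb : Blk l p a) (h : Sp Q p a (fun x => ind (B x))) (α : Bool) :
    ∃ p' a', Blk l p' a' ∧ Sp Q p' a' (fun x => ind (xor (B x) α)) := by
  cases α with
  | false =>
    refine ⟨p, a, hb, ?_⟩
    have : (fun x => ind (xor (B x) false)) = fun x => ind (B x) := by
      funext x
      rw [Bool.xor_false]
    rw [this]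
    exact h
  | true =>
    refine ⟨1 - p, 1 - 2 * p + a, hb.neg, ?_⟩
    have : (fun x => ind (xor (B x) true)) = fun x => 1 - ind (B x) := by
      funext x
      rw [Bool.xor_true, ind_not]
    rw [this]
    exact sp_not hS (hW _ _ _ hb) h

theorem fourth (hN : SNL.Stm) (hS : SPL.Stm) {s N n : ℕ} (IH : ∀ s' < s, P s' N n) (F : Fn N)
    (J : Finset (Fin N)) (B : Fin N → Fn n) (Q : Fin N → Finset (Fin n)) (l : Fin N → ℕ)
    (p a : Fin N → ℝ) (hdep : DepJ J F) (hg : Good J B Q l p a)
    (hW : ∀ l' p' a', Blk l' p' a' → Num l' p' a')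
    (hs : 1 ≤ s) (i j : Fin N) (α β c₁ : Bool) (F' : Fn N) (hij : i ≠ j)
    (e1 : ∀ x, F x = F' (Function.update x i (xor (x i) α && xor (x j) β)))
    (e2 : ∀ x, F' x = F (Function.update (Function.update x i (xor (x i) α)) j (!β)))
    (e3 : ∀ x b, F' (Function.update x j b) = F' x) (e4 : Computes F' (s - 1))
    (e5 : ∀ c, Drop (res F' i c) s (2 + if c = c₁ then 1 else 0)) :
    Res F B (s + (∑ j ∈ J, (l j - 1)) + 3) := by
  by_cases hiJ : i ∈ J
  · by_cases hjJ : j ∈ J
    · -- both in J
      obtain ⟨a1, a2⟩ := hg.1 i hiJ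
      obtain ⟨b1, b2⟩ := hg.1 j hjJ
      have m1 := (hW _ _ _ a1).1
      have m2 := (hW _ _ _ b1).1
      obtain ⟨p1, x1, y1, y2⟩ := signed hS hW a1 a2 α
      obtain ⟨p2, x2, z1, z2⟩ := signed hS hW b1 b2 β
      have hdij : Disjoint (Q i) (Q j) := hg.2 i hiJ j hjJ hij
      have w1 : Blk (l i + l j) (p1 * p2) (x1 * x2) := y1.mul z1
      have w2 : Sp (Q i ∪ Q j) (p1 * p2) (x1 * x2)
          (fun x => ind (xor (B i x) α && xor (B j x) β)) := by
        have := hS.2.2 n (Q i) (Q j) p1 p2 x1 x2 _ _ hdij y2 z2
        have hf : (fun x => ind (xor (B i x) α && xor (B j x) β)) =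
            fun x => ind (xor (B i x) α) * ind (xor (B j x) β) := by
          funext x
          rw [ind_and]
        rw [hf]
        exact this
      have hij' : i ∈ J.erase j := Finset.mem_erase.mpr ⟨hij, hiJ⟩
      have hsum1 : (l j - 1) + ∑ m ∈ J.erase j, (l m - 1) = ∑ m ∈ J, (l m - 1) :=
        Finset.add_sum_erase J (fun m => l m - 1) hjJ
      have hsum2 : (l i - 1) + ∑ m ∈ (J.erase j).erase i, (l m - 1) =
          ∑ m ∈ J.erase j, (l m - 1) :=
        Finset.add_sum_erase (J.erase j) (fun m => l m - 1) hij'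
      have hdep' : DepJ (J.erase j) F' := by
        intro x x' hx
        rw [e2, e2]
        refine hdep _ _ fun m hm => ?_
        by_cases hmj : m = j
        · rw [hmj, Function.update_self, Function.update_self]
        · rw [Function.update_of_ne hmj, Function.update_of_ne hmj]
          by_cases hmi : m = i
          · rw [hmi, Function.update_self, Function.update_self, hx i hij']
          · rw [Function.update_of_ne hmi, Function.update_of_ne hmi]
            exact hx m (Finset.mem_erase.mpr ⟨hmj, hm⟩)
      have hdis : ∀ m ∈ J, m ≠ i → m ≠ j → Disjoint (Q i ∪ Q j) (Q m) := by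
        intro m hm hmi hmj
        rw [Finset.disjoint_union_left]
        exact ⟨hg.2 i hiJ m hm (Ne.symm hmi), hg.2 j hjJ m hm (Ne.symm hmj)⟩
      have hgood : Good (J.erase j)
          (Function.update B i (fun x => xor (B i x) α && xor (B j x) β))
          (Function.update Q i (Q i ∪ Q j)) (Function.update l i (l i + l j))
          (Function.update p i (p1 * p2)) (Function.update a i (x1 * x2)) := by
        constructor
        · intro m hm
          by_cases hmi : m = i
          · subst hmi
            simp only [Function.update_self]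
            exact ⟨w1, w2⟩
          · simp only [Function.update_of_ne hmi]
            exact hg.1 m (Finset.mem_of_mem_erase hm)
        · intro m hm m' hm' hne
          by_cases hmi : m = i
          · subst hmi
            rw [Function.update_self, Function.update_of_ne (Ne.symm hne)]
            exact hdis m' (Finset.mem_of_mem_erase hm') (Ne.symm hne)
              (Finset.ne_of_mem_erase hm')
          · rw [Function.update_of_ne hmi]
            by_cases hmi' : m' = i
            · subst hmi'
              rw [Function.update_self]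
              exact (hdis m (Finset.mem_of_mem_erase hm) hmi
                (Finset.ne_of_mem_erase hm)).symm
            · rw [Function.update_of_ne hmi']
              exact hg.2 m (Finset.mem_of_mem_erase hm) m' (Finset.mem_of_mem_erase hm') hne
      have hT := IH (s - 1) (by omega) F' (J.erase j) _ _ _ _ _ e4 hdep' hgood
      have hsum3 : (l i + l j - 1) + ∑ m ∈ (J.erase j).erase i, (l m - 1) =
          ∑ m ∈ J.erase j, (Function.update l i (l i + l j) m - 1) := by
        rw [← Finset.add_sum_erase (J.erase j)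
          (fun m => Function.update l i (l i + l j) m - 1) hij', Function.update_self]
        congr 1
        refine Finset.sum_congr rfl fun m hm => ?_
        rw [Function.update_of_ne (Finset.ne_of_mem_erase hm)]
      have hE : s - 1 + (∑ m ∈ J.erase j, (Function.update l i (l i + l j) m - 1)) + 3 =
          s + (∑ m ∈ J, (l m - 1)) + 3 := by omega
      rw [hE] at hT
      have hfun : (fun x => ind (F fun m => B m x)) = fun x => ind (F' fun m =>
          Function.update B i (fun x => xor (B i x) α && xor (B j x) β) m x) := by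
        funext x
        rw [e1]
        congr 2
        funext m
        by_cases hmi : m = i
        · subst hmi
          rw [Function.update_self, Function.update_self]
        · rw [Function.update_of_ne hmi, Function.update_of_ne hmi]
      unfold Res
      rw [hfun]
      exact hT
    · -- j not in J
      have hF : F = res F' i false := by
        funext x
        have h1 : F x = F (Function.update x j β) := by
          refine hdep _ _ fun m hm => ?_
          have hmj : m ≠ j := fun h => hjJ (h ▸ hm)
          rw [Function.update_of_ne hmj]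
        rw [h1, e1, Function.update_self, Bool.xor_self, Bool.and_false,
          Function.update_comm (Ne.symm hij), e3]
        rfl
      have hD' : Drop F s (2 + if false = c₁ then 1 else 0) := by
        have := e5 false
        rwa [← hF] at this
      exact sub hN IH F J B Q l p a _ _ hD' (by omega) hdep hg (by omega)
  · -- i not in J
    have hF : F = res F' i false := by
      funext x
      have h1 : F x = F (Function.update x i α) := by
        refine hdep _ _ fun m hm => ?_
        have hmi : m ≠ i := fun h => hiJ (h ▸ hm)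
        rw [Function.update_of_ne hmi]
      rw [h1, e1, Function.update_self, Bool.xor_self, Bool.false_and, Function.update_idem]
      rfl
    have hD' : Drop F s (2 + if false = c₁ then 1 else 0) := by
      have := e5 false
      rwa [← hF] at this
    exact sub hN IH F J B Q l p a _ _ hD' (by omega) hdep hg (by omega)

theorem main : ELIMS.Stm := by
  intro hB hI hDel hM hC2 hC1 hSt hTab hBlk hS hN
  have hW : ∀ l' p' a', Blk l' p' a' → Num l' p' a' := fun l' p' a' h => hBlk hTab l' p' a' h
  have key : ∀ (N n s : ℕ), P s N n := by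
    intro N n s
    induction s using Nat.strong_induction_on with
    | _ s IH =>
      intro F J B Q l p a hF hdep hg
      rcases hSt hB hI hDel hM hC2 hC1 N s F hF with ⟨b, hb⟩ | ⟨i, b, hb⟩ |
        ⟨hs, i, c₁, c₂, hD⟩ | ⟨hs, i, j, α, β, c₁, F', hij, e1, e2, e3, e4, e5⟩
      · exact res_const hN F B _ b hb
      · exact literal hN hS s F J B Q l p a hdep hg hW i b hb
      · exact third hN hS IH F J B Q l p a hdep hg hW hs i c₁ c₂ hD
      · exact fourth hN hS IH F J B Q l p a hdep hg hW hs i j α β c₁ F' hij e1 e2 e3 e4 e5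
  intro s N n F J B Q l p a hF hdep hg hdis
  exact key N n s F J B Q l p a hF hdep ⟨hg, hdis⟩

end Pool.Agent.W427.Lc2.ELIMS
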